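import Mathlib

set_option autoImplicit false

namespace Pool.Agent.H498Z.Flex

/-- distance to the first earlier neighbour -/
def d1 (n : ℕ) : ℕ := if n % 4 = 0 then 2 else if n % 4 = 1 then 1 else if n % 4 = 2 then 1 else 2
/-- distance to the second earlier neighbour -/
def d2 (n : ℕ) : ℕ := if n % 4 = 0 then 3 else if n % 4 = 1 then 5 else if n % 4 = 2 then 2 else 7

def back (n m : ℕ) : Prop := m + d1 n = n ∨ m + d2 n = n

lemma d1_pos (n : ℕ) : 0 < d1 n := by unfold d1; split_ifs <;> omega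
lemma d2_pos (n : ℕ) : 0 < d2 n := by unfold d2; split_ifs <;> omega

lemma back_lt {n m : ℕ} (h : back n m) : m < n := by
  have := d1_pos n; have := d2_pos n
  rcases h with h | h <;> omega

/-- the chain graph -/
def G (N : ℕ) : SimpleGraph (Fin N) where
  Adj u v := back u v ∨ back v u
  symm := ⟨fun _ _ h => h.symm⟩
  loopless := ⟨fun u h => by rcases h with h | h <;> exact lt_irrefl _ (back_lt h)⟩

/-- the missing colour -/
def miss (n : ℕ) : ℕ :=
  if n % 4 = 0 then (n / 4 + 3) % 4 else if n % 4 = 3 then (n / 4 + 1) % 4 else (n / 4 + 2) % 4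

def L (n : ℕ) : Finset ℕ := (Finset.range 4).erase (miss n)

lemma miss_lt (n : ℕ) : miss n < 4 := by unfold miss; split_ifs <;> omega

lemma card_L (n : ℕ) : (L n).card = 3 := by
  rw [L, Finset.card_erase_of_mem (Finset.mem_range.2 (miss_lt n))]; simp

lemma mem_L {n c : ℕ} : c ∈ L n ↔ c ≠ miss n ∧ c < 4 := by simp [L]

lemma degenerate (N : ℕ) (S : Finset (Fin N)) (hS : S.Nonempty) :
    ∃ v ∈ S, ({u : Fin N | u ∈ S ∧ (G N).Adj v u}).ncard ≤ 2 := by
  refine ⟨S.max' hS, S.max'_mem hS, ?_⟩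
  set v := S.max' hS
  have hsub : Fin.val '' {u : Fin N | u ∈ S ∧ (G N).Adj v u} ⊆ {v.val - d1 v, v.val - d2 v} := by
    rintro _ ⟨u, ⟨hu, hadj⟩, rfl⟩
    have hle : u ≤ v := S.le_max' u hu
    rcases hadj with h | h
    · rcases h with h | h
      · left; omega
      · right; change u.val = _; omega
    · exact absurd (back_lt h) (not_lt.2 hle)
  rw [← Set.ncard_image_of_injective _ Fin.val_injective]
  refine (Set.ncard_le_ncard hsub (Set.toFinite _)).trans ?_
  exact (Set.ncard_insert_le _ _).trans (by simp)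

/-- the potential of a state, in colours shifted by the stage -/
def pot (a b : ℕ) : ℕ :=
  if b = 0 then (if a = 0 then 3 else 0) else if b = 1 then (if a = 1 then 2 else 0)
  else if a = 3 then 1 else 2

lemma pot_le (a b : ℕ) : pot a b ≤ 3 := by unfold pot; split_ifs <;> omega

set_option synthInstance.maxSize 4096 in
set_option maxRecDepth 100000 in
lemma step_fin : ∀ r a b c b' a' : Fin 4,
    a.val ≠ (r + 2) % 4 → b.val ≠ (r + 3) % 4 → c.val ≠ (r + 2) % 4 →
    b'.val ≠ (r + 4) % 4 → a'.val ≠ (r + 3) % 4 →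
    c ≠ a → c ≠ b → b' ≠ c → b' ≠ a → a' ≠ b → a' ≠ b' →
    pot ((a' + 3 - r) % 4) ((b' + 3 - r) % 4) +
      (if b.val ≠ (r + 1) % 4 ∧ a'.val ≠ (r + 1) % 4 then 1 else 0) ≤
      pot ((a + 4 - r) % 4) ((b + 4 - r) % 4) := by
  decide +kernel

lemma step (t a b c b' a' z : ℕ) (ha : a ∈ L (4 * t + 1)) (hb : b ∈ L (4 * t))
    (hc : c ∈ L (4 * t + 2)) (hb' : b' ∈ L (4 * t + 4)) (ha' : a' ∈ L (4 * t + 5))
    (h1 : c ≠ a) (h2 : c ≠ b) (h3 : b' ≠ c) (h4 : b' ≠ a) (h5 : a' ≠ b) (h6 : a' ≠ b')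
    (h7 : z ≠ b) (h8 : z ≠ a') :
    pot ((a' + 4 - (t + 1) % 4) % 4) ((b' + 4 - (t + 1) % 4) % 4) +
      (if z = (t + 1) % 4 then 1 else 0) ≤ pot ((a + 4 - t % 4) % 4) ((b + 4 - t % 4) % 4) := by
  rw [mem_L] at ha hb hc hb' ha'
  have m1 : miss (4 * t + 1) = (t % 4 + 2) % 4 := by unfold miss; split_ifs <;> omega
  have m2 : miss (4 * t) = (t % 4 + 3) % 4 := by unfold miss; split_ifs <;> omega
  have m3 : miss (4 * t + 2) = (t % 4 + 2) % 4 := by unfold miss; split_ifs <;> omega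
  have m4 : miss (4 * t + 4) = (t % 4 + 4) % 4 := by unfold miss; split_ifs <;> omega
  have m5 : miss (4 * t + 5) = (t % 4 + 3) % 4 := by unfold miss; split_ifs <;> omega
  have := step_fin ⟨t % 4, by omega⟩ ⟨a, ha.2⟩ ⟨b, hb.2⟩ ⟨c, hc.2⟩ ⟨b', hb'.2⟩ ⟨a', ha'.2⟩
    (m1 ▸ ha.1) (m2 ▸ hb.1) (m3 ▸ hc.1) (m4 ▸ hb'.1) (m5 ▸ ha'.1)
    (by simpa using h1) (by simpa using h2) (by simpa using h3) (by simpa using h4)
    (by simpa using h5) (by simpa using h6)
  simp only at this
  have e1 : (a' + 4 - (t + 1) % 4) % 4 = (a' + 3 - t % 4) % 4 := by omega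
  have e2 : (b' + 4 - (t + 1) % 4) % 4 = (b' + 3 - t % 4) % 4 := by omega
  rw [e1, e2]
  refine le_trans ?_ this
  gcongr
  split_ifs with p q
  · exact le_rfl
  · exfalso; apply q; constructor <;> omega
  · exact Nat.zero_le _
  · exact le_rfl

/-- at most three requests are satisfied -/
lemma count_le (k : ℕ) (ψ : ℕ → ℕ) (hL : ∀ n < 4 * k + 4, ψ n ∈ L n)
    (hP : ∀ n < 4 * k + 4, ∀ m, back n m → ψ n ≠ ψ m) :
    ((Finset.range k).filter (fun t => ψ (4 * t + 7) = (t + 1) % 4)).card ≤ 3 := by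
  have key : ∀ j ≤ k, pot ((ψ (4 * j + 1) + 4 - j % 4) % 4) ((ψ (4 * j) + 4 - j % 4) % 4) +
      ((Finset.range j).filter (fun t => ψ (4 * t + 7) = (t + 1) % 4)).card ≤ 3 := by
    intro j
    induction j with
    | zero => intro _; simpa using pot_le _ _
    | succ j ih =>
      intro hj
      have h0 := ih (by omega)
      have bk : ∀ n m, n < 4 * k + 4 → (m + d1 n = n ∨ m + d2 n = n) → ψ n ≠ ψ m :=
        fun n m hn h => hP n hn m h
      have s := step j (ψ (4 * j + 1)) (ψ (4 * j)) (ψ (4 * j + 2)) (ψ (4 * j + 4)) (ψ (4 * j + 5))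
        (ψ (4 * j + 7)) (hL _ (by omega)) (hL _ (by omega)) (hL _ (by omega)) (hL _ (by omega))
        (hL _ (by omega))
        (bk _ _ (by omega) (by unfold d1 d2; split_ifs <;> omega))
        (bk _ _ (by omega) (by unfold d1 d2; split_ifs <;> omega))
        (bk _ _ (by omega) (by unfold d1 d2; split_ifs <;> omega))
        (bk _ _ (by omega) (by unfold d1 d2; split_ifs <;> omega))
        (bk _ _ (by omega) (by unfold d1 d2; split_ifs <;> omega))
        (bk _ _ (by omega) (by unfold d1 d2; split_ifs <;> omega))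
        (bk _ _ (by omega) (by unfold d1 d2; split_ifs <;> omega))
        (bk _ _ (by omega) (by unfold d1 d2; split_ifs <;> omega))
      rw [Finset.range_add_one, Finset.filter_insert]
      have e1 : 4 * (j + 1) + 1 = 4 * j + 5 := by ring
      have e2 : 4 * (j + 1) = 4 * j + 4 := by ring
      rw [e1, e2]
      split_ifs with h
      · rw [Finset.card_insert_of_notMem (by simp)]
        rw [if_pos h] at s
        omega
      · rw [if_neg h] at s
        omega
  have := key k le_rfl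
  omega

/-- the requested vertices -/
def D (k : ℕ) : Finset (Fin (4 * k + 4)) :=
  Finset.univ.filter (fun v => v.val % 4 = 3 ∧ 7 ≤ v.val)

/-- the requested colour -/
def req (n : ℕ) : ℕ := (n / 4) % 4

lemma req_mem (k : ℕ) (v : Fin (4 * k + 4)) (hv : v ∈ D k) : req v ∈ L v := by
  have h := (Finset.mem_filter.1 hv).2
  rw [mem_L]
  unfold req miss
  split_ifs <;> omega

lemma card_filter_D (k : ℕ) (p : Fin (4 * k + 4) → Prop) [DecidablePred p] (q : ℕ → Prop)
    [DecidablePred q] (h : ∀ t (ht : t < k), p ⟨4 * t + 7, by omega⟩ ↔ q t) :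
    ((D k).filter p).card = ((Finset.range k).filter q).card := by
  symm
  refine Finset.card_bij (fun t ht => ⟨4 * t + 7, by
    have := Finset.mem_range.1 (Finset.mem_filter.1 ht).1; omega⟩) ?_ ?_ ?_
  · intro t ht
    obtain ⟨h1, h2⟩ := Finset.mem_filter.1 ht
    refine Finset.mem_filter.2 ⟨?_, (h t (Finset.mem_range.1 h1)).2 h2⟩
    simp only [D, Finset.mem_filter, Finset.mem_univ, true_and]
    omega
  · intro a _ b _ hab
    have := congrArg Fin.val hab
    simp only at this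
    omega
  · intro v hv
    obtain ⟨h1, h2⟩ := Finset.mem_filter.1 hv
    have h3 := (Finset.mem_filter.1 h1).2
    have hv' := v.isLt
    have ht : (v.val - 7) / 4 < k := by omega
    have e : (⟨4 * ((v.val - 7) / 4) + 7, by omega⟩ : Fin (4 * k + 4)) = v := by
      ext; simp only; omega
    refine ⟨(v.val - 7) / 4, Finset.mem_filter.2 ⟨Finset.mem_range.2 ht, ?_⟩, e⟩
    rw [← h _ ht, e]; exact h2

lemma card_D (k : ℕ) : (D k).card = k := by
  have := card_filter_D k (fun _ => True) (fun _ => True) (fun _ _ => Iff.rfl)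
  simpa using this

theorem core (k : ℕ) (φ : Fin (4 * k + 4) → ℕ) (hL : ∀ v : Fin (4 * k + 4), φ v ∈ L v)
    (hP : ∀ u v, (G (4 * k + 4)).Adj u v → φ u ≠ φ v) :
    ((D k).filter (fun v => φ v = req v)).card ≤ 3 := by
  let ψ : ℕ → ℕ := fun n => if h : n < 4 * k + 4 then φ ⟨n, h⟩ else 0
  have := count_le k ψ (fun n hn => by simp only [ψ, dif_pos hn]; exact hL ⟨n, hn⟩)
    (fun n hn m hb => by
      have hm : m < 4 * k + 4 := (back_lt hb).trans hn
      simp only [ψ, dif_pos hn, dif_pos hm]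
      exact hP ⟨n, hn⟩ ⟨m, hm⟩ (Or.inl hb))
  rw [card_filter_D k _ (fun t => ψ (4 * t + 7) = (t + 1) % 4)]
  · exact this
  · intro t ht
    have h1 : 4 * t + 7 < 4 * k + 4 := by omega
    have h2 : req (4 * t + 7) = (t + 1) % 4 := by unfold req; omega
    simp only [ψ, dif_pos h1, h2]

end Pool.Agent.H498Z.Flex
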